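import Mathlib
import Pool.Agent.H958.RL.Stm2
import Pool.Agent.H958.RO.Det
import Pool.Graph.R_seed8.W657.RD.PBas

/-!
# Project RL, part UPSM: bounded dimension, uniformly for bounded `c`
-/

set_option autoImplicit false

namespace Pool.Agent.H746.RL.Upsm

open Finset Filter Topology
open scoped Classical
open Pool.Agent.W830.RD (Om gle Pr Rlz)
open Pool.Agent.H958.RO (Rev dimG GG res IncOn dg Forest Near KIn Bad NN Star blk ic)
open Pool.Agent.H958.RL

theorem GG_mono {n : ℕ} {E E' : Finset (Fin n × Fin n)} (h : E ⊆ E') {a b : Fin n}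
    (hab : (GG E).Adj a b) : (GG E').Adj a b :=
  ⟨hab.1, hab.2.imp (fun x => h x) (fun x => h x)⟩

theorem res_mono {n : ℕ} {E E' : Finset (Fin n × Fin n)} (h : E ⊆ E') (S : Finset (Fin n)) :
    res E S ⊆ res E' S := by
  intro e he
  simp only [res, mem_filter] at he ⊢
  exact ⟨h he.1, he.2⟩

/-- Walks are transported along inclusions. -/
theorem walk_mono {n : ℕ} {E E' : Finset (Fin n × Fin n)} (h : E ⊆ E') (bl : Fin n → ℕ)
    {a b : Fin n} (p : (GG E).Walk a b) :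
    ∃ q : (GG E').Walk a b, q.length = p.length ∧ ic bl q = ic bl p := by
  induction p with
  | nil => exact ⟨SimpleGraph.Walk.nil, rfl, rfl⟩
  | cons hadj p ih =>
    obtain ⟨q, hq1, hq2⟩ := ih
    refine ⟨SimpleGraph.Walk.cons (GG_mono h hadj) q, ?_, ?_⟩
    · rw [SimpleGraph.Walk.length_cons, SimpleGraph.Walk.length_cons, hq1]
    · unfold ic at hq2 ⊢
      rw [SimpleGraph.Walk.darts_cons, SimpleGraph.Walk.darts_cons, List.filter_cons,
        List.filter_cons]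
      split_ifs with h1
      · rw [List.length_cons, List.length_cons, hq2]
      · exact hq2

theorem Near_mono {n : ℕ} {E E' : Finset (Fin n × Fin n)} (h : E ⊆ E') {bl : Fin n → ℕ}
    {S : Finset (Fin n)} {k : ℕ} {a b : Fin n} (hN : Near E bl S k a b) :
    Near E' bl S k a b := by
  obtain ⟨p, hp⟩ := hN
  obtain ⟨q, _, hq⟩ := walk_mono (res_mono h S) bl p
  exact ⟨q, hq.le.trans hp⟩

theorem KIn_mono {n : ℕ} {E E' : Finset (Fin n × Fin n)} (h : E ⊆ E') {bl : Fin n → ℕ}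
    {S : Finset (Fin n)} {k k' : ℕ} (hk : k ≤ k') (hK : KIn E bl S k) : KIn E' bl S k' := by
  obtain ⟨lab, hlab⟩ := hK
  refine ⟨fun v => Fin.castLE hk (lab v), ?_⟩
  intro a ha b hb hab
  exact Near_mono h (hlab a ha b hb (Fin.castLE_injective hk hab))

theorem Star_anti {n : ℕ} {E E' : Finset (Fin n × Fin n)} (h : E ⊆ E') {T C : ℕ} {κ : ℝ}
    (hS : Star T C κ E') : Star T C κ E := by
  intro S hne hcard x hx hres hK
  have hle : (res E S).card ≤ (res E' S).card := Finset.card_le_card (res_mono h S)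
  refine hS S hne hcard ((res E' S).card - S.card) (by omega) (by omega) ?_
  exact KIn_mono h (Nat.mul_le_mul_left C (by omega)) hK

theorem dg_mono {n : ℕ} {E E' : Finset (Fin n × Fin n)} (h : E ⊆ E') (S : Finset (Fin n))
    (v : Fin n) : dg E S v ≤ dg E' S v := by
  unfold dg
  apply Finset.card_le_card
  intro w hw
  simp only [mem_filter] at hw ⊢
  exact ⟨hw.1, GG_mono h hw.2⟩

theorem Bad_mono {n : ℕ} {E E' : Finset (Fin n × Fin n)} (h : E ⊆ E') {l D : ℕ} {v : Fin n}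
    (hB : Bad E l D v) : Bad E' l D v := by
  rcases hB with hB | ⟨w, hw, hv⟩
  · exact Or.inl (hB.trans_le (dg_mono h univ v))
  · exact Or.inr ⟨w, fun i hi => h (hw i hi), hv⟩

theorem NN_sub {n : ℕ} {E E' : Finset (Fin n × Fin n)} (h : E ⊆ E') (l D r : ℕ) :
    NN E l D r ⊆ NN E' l D r := by
  intro v hv
  simp only [NN, mem_filter, mem_univ, true_and] at hv ⊢
  obtain ⟨b, hb, p, hp⟩ := hv
  obtain ⟨q, hq, _⟩ := walk_mono h (fun _ => 0) p
  exact ⟨b, Bad_mono h hb, q, hq.le.trans hp⟩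

theorem main (h1 : Pool.Agent.H958.RO.S_DET) (h2 : Pool.Agent.H958.RO.S_STAR)
    (h3 : Pool.Agent.H958.RO.S_SMALL) (h4 : S_MONO) : S_UPSM := by
  intro C1 hC1
  have hC10 : (0 : ℝ) < C1 := by linarith
  obtain ⟨T, hT, hS⟩ := h2 C1 hC10
  obtain ⟨κ, hκ, hlim1⟩ := hS (18 * T + 2)
  obtain ⟨l, D, hl, hlim2⟩ := h3 C1 κ hC10 hκ
  refine ⟨((4 * (((D + 1) ^ l) ^ 2 + 1) + 10 : ℕ) : ℝ), by
    exact_mod_cast (by omega : 0 < 4 * (((D + 1) ^ l) ^ 2 + 1) + 10), ?_⟩
  intro η' hη'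
  have e1 := hlim1.eventually (gt_mem_nhds (half_pos hη'))
  have e2 := hlim2.eventually (gt_mem_nhds (half_pos hη'))
  obtain ⟨N0, hN0⟩ := eventually_atTop.1 (e1.and (e2.and (eventually_gt_atTop ⌈C1⌉₊)))
  refine ⟨N0, ?_⟩
  intro n hn c hc1 hcC
  obtain ⟨f1, f2, f3⟩ := hN0 n hn
  have hCn : C1 < n := by
    calc C1 ≤ ⌈C1⌉₊ := Nat.le_ceil C1
      _ < n := by exact_mod_cast f3
  have hn0 : (0 : ℝ) < n := hC10.trans hCn
  have hc0 : (0 : ℝ) < c := by linarith
  obtain ⟨b1, b2, b3, b4, b5, b6⟩ := Pool.Agent.W657.RD.PBas.main (c / n) n (div_pos hc0 hn0)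
    ((div_lt_one hn0).2 (hcC.trans_lt hCn))
  obtain ⟨b1', b2', b3', b4', b5', b6'⟩ := Pool.Agent.W657.RD.PBas.main (C1 / n) n
    (div_pos hC10 hn0) ((div_lt_one hn0).2 hCn)
  -- the event
  have hstep1 : Pr (c / n) n (fun E => Real.exp
      ((4 * (((D + 1) ^ l) ^ 2 + 1) + 10 : ℕ) : ℝ) < (dimG E : ℝ)) ≤
      Pr (c / n) n (fun E => ¬ Star T (18 * T + 2) κ E ∨
        κ * n < ((NN E l D (3 * l)).card : ℝ)) := by
    refine b3 _ _ ?_
    intro E hE hdim
    by_contra hcon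
    push Not at hcon
    obtain ⟨c1, c2⟩ := hcon
    have hR := h1 n l D T κ E hE hl hT c2 c1
    have hle : dimG E ≤ 4 * (((D + 1) ^ l) ^ 2 + 1) + 10 := Nat.sInf_le hR
    have hle' : (dimG E : ℝ) ≤ ((4 * (((D + 1) ^ l) ^ 2 + 1) + 10 : ℕ) : ℝ) := by
      exact_mod_cast hle
    have hexp := Real.add_one_le_exp ((4 * (((D + 1) ^ l) ^ 2 + 1) + 10 : ℕ) : ℝ)
    linarith
  have hstep2 : Pr (c / n) n (fun E => ¬ Star T (18 * T + 2) κ E ∨
        κ * n < ((NN E l D (3 * l)).card : ℝ)) ≤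
      Pr (C1 / n) n (fun E => ¬ Star T (18 * T + 2) κ E ∨
        κ * n < ((NN E l D (3 * l)).card : ℝ)) := by
    refine h4 (c / n) (C1 / n) n _ (div_pos hc0 hn0) ?_ ((div_lt_one hn0).2 hCn) ?_
    · exact div_le_div_of_nonneg_right hcC hn0.le
    · intro E E' hEE hE' hQ
      rcases hQ with hQ | hQ
      · exact Or.inl (fun hS' => hQ (Star_anti hEE hS'))
      · right
        have hcard : (NN E l D (3 * l)).card ≤ (NN E' l D (3 * l)).card :=
          Finset.card_le_card (NN_sub hEE l D (3 * l))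
        have hcard' : ((NN E l D (3 * l)).card : ℝ) ≤ ((NN E' l D (3 * l)).card : ℝ) := by
          exact_mod_cast hcard
        linarith
  have hstep3 := b4' (fun E => ¬ Star T (18 * T + 2) κ E)
    (fun E => κ * n < ((NN E l D (3 * l)).card : ℝ))
  linarith

end Pool.Agent.H746.RL.Upsm
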